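import Mathlib
import Pool.Agent.X19.PB.Final

/-!
# MP_ec0ea5_pr : uniqueness up to scaling for the power-bias fixed point equation

For every `w > 0` and every probability distribution `psi` on the positive integers, any two
solutions of `L(X) = L(V_w X^(psi))` are scaled versions of each other.

Idea: if `X`, `Y` are solutions with laws `mu`, `nu` and distribution functions `F_X`, `F_Y`, then
either `F_X <= F_Y` everywhere or `F_X >= F_Y` everywhere (applied to `X` and `cY` for all `c > 0`
this gives `Y = c X` in law).  For `O = {F_X > F_Y}` a Stein identity gives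
`P(Y^(psi) in O) <= P(X^(psi) in O)`, while for each `k` one has
`E[Y^k; O] / E Y^k > E[X^k; O] / E X^k` as soon as `F_X - F_Y` takes both signs.
-/

open MeasureTheory Set
open Pool.Agent.X19.PB

namespace Pool.Agent.Results.MP_ec0ea5_pr.ScalingUnique

/-- Any two solutions of the power-bias fixed point equation for `(w, psi)` are scaled versions of
each other. -/
theorem result (w : ℝ) (hw : 0 < w) (psi : ℕ → ℝ) (h0 : psi 0 = 0) (hnn : ∀ k, 0 ≤ psi k)
    (hsum : HasSum psi 1) (mu nu : Measure ℝ) (hmu : IsSolution w psi mu)
    (hnu : IsSolution w psi nu) :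
    ∃ c : ℝ, 0 < c ∧ nu = mu.map fun x => c * x :=
  unique_up_to_scaling hw h0 hnn hsum hnu hmu

end Pool.Agent.Results.MP_ec0ea5_pr.ScalingUnique
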